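import Pool.Agent.P.MP_bdc337_an.LN.UpLim

set_option autoImplicit false

namespace Pool.Agent.Results.MP_bdc337_an.LimitLaw

/-- `f` is analytic and univalent in the unit disc, `f 0 = 0`, `f' 0 = 1`, and
`|arg (z f'(z) / f(z))| < α π / 2` for `z ≠ 0` in the disc (at `z = 0` the quotient is `1`). -/
def StronglyStarlike (α : ℝ) (f : ℂ → ℂ) : Prop :=
  DifferentiableOn ℂ f (Metric.ball 0 1) ∧ Set.InjOn f (Metric.ball 0 1) ∧ f 0 = 0 ∧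
    deriv f 0 = 1 ∧
    ∀ z ∈ Metric.ball (0 : ℂ) 1, z ≠ 0 → |Complex.arg (z * deriv f z / f z)| < α * Real.pi / 2

/-- `(α / π) ∫₀^{2π} |f'(z)| cos (arg (z f'(z) / f(z)) / α) dt` with `z = r e^{it}`. -/
noncomputable def J (α : ℝ) (f : ℂ → ℂ) (r : ℝ) : ℝ :=
  α / Real.pi * ∫ t in (0 : ℝ)..2 * Real.pi, ‖deriv f (circleMap 0 r t)‖ * Real.cos
    (Complex.arg (circleMap 0 r t * deriv f (circleMap 0 r t) / f (circleMap 0 r t)) / α)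

theorem result (α : ℝ) (h0 : 0 < α) (h1 : α < 1) : ∃ (A : ℕ → ℝ) (C : ℝ),
    (∀ n : ℕ, 2 ≤ n → IsLUB {x : ℝ | ∃ f : ℂ → ℂ, StronglyStarlike α f ∧
      x = ‖iteratedDeriv n f 0 / (n.factorial : ℂ)‖} (A n)) ∧
    IsLUB {x : ℝ | ∃ (f : ℂ → ℂ) (r : ℝ), StronglyStarlike α f ∧ 0 < r ∧ r < 1 ∧ x = J α f r} C ∧
    Filter.Tendsto (fun n : ℕ => (n : ℝ) * A n) Filter.atTop (nhds C) :=
  Pool.Agent.P.MP_bdc337_an.LN.limit_law h0 h1 (fun _ => Iff.rfl) fun _ _ => rfl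

end Pool.Agent.Results.MP_bdc337_an.LimitLaw
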