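import Pool.Agent.P.MP_bdc337_an.Upper
import Pool.Agent.P.MP_bdc337_an.Extremal

set_option autoImplicit false

namespace Pool.Agent.P.MP_bdc337_an.Moved.SmallOrder

/-- `f` is analytic and univalent in the unit disc, `f 0 = 0`, `f' 0 = 1`, and
`|arg (z f'(z) / f(z))| < α π / 2` for `z ≠ 0` in the disc (at `z = 0` the quotient is `1`). -/
def StronglyStarlike (α : ℝ) (f : ℂ → ℂ) : Prop :=
  DifferentiableOn ℂ f (Metric.ball 0 1) ∧ Set.InjOn f (Metric.ball 0 1) ∧ f 0 = 0 ∧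
    deriv f 0 = 1 ∧
    ∀ z ∈ Metric.ball (0 : ℂ) 1, z ≠ 0 → |Complex.arg (z * deriv f z / f z)| < α * Real.pi / 2

theorem result (α : ℝ) (h0 : 0 < α) (h1 : α ≤ 1 / 3) (n : ℕ) (hn : 2 ≤ n) :
    IsGreatest {x : ℝ | ∃ f : ℂ → ℂ, StronglyStarlike α f ∧
      x = ‖iteratedDeriv n f 0 / (n.factorial : ℂ)‖} (2 * α / ((n : ℝ) - 1)) := by
  obtain ⟨N, rfl⟩ : ∃ N, n = N + 1 := ⟨n - 1, by omega⟩
  have hN : 1 ≤ N := by omega
  have e : ((N + 1 : ℕ) : ℝ) - 1 = N := by push_cast; ring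
  rw [e]
  constructor
  · obtain ⟨f, a1, a2, a3, a4, a5, a6⟩ :=
      Pool.Agent.P.MP_bdc337_an.extremal h0 (by linarith) hN
    refine ⟨f, ⟨a1, a2, a3, a4, a5⟩, ?_⟩
    rw [← Pool.Agent.P.MP_bdc337_an.coeff_tay, a6, Complex.norm_real,
      Real.norm_of_nonneg (by positivity)]
  · rintro x ⟨f, ⟨a1, a2, a3, a4, a5⟩, rfl⟩
    rw [← Pool.Agent.P.MP_bdc337_an.coeff_tay]
    exact Pool.Agent.P.MP_bdc337_an.upper h0 h1 a1 a2 a3 a4 a5 hN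

end Pool.Agent.P.MP_bdc337_an.Moved.SmallOrder
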